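import Mathlib
import Pool.Agent.H416Sens.Bollobas

/-!
# Cliques in uniform hypergraphs with bounded dominated number: the answer to the question

`g r s t` is the largest number of copies of the complete `r`-uniform hypergraph on `t` vertices in
an `r`-uniform hypergraph without isolated vertices whose dominated number is at most `s`.  The
complete hypergraph on `s + r - 1` vertices shows `g r s t ≥ C(s + r - 1, t)`.

* If `s ≤ 2 (t - r) + 1`, equality holds, for all `r`.
* If `s ≥ 2 (t - r) + 2`, equality fails for all large `r`, and `g r s t / C(s + r - 1, t)` tends to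
  infinity with `r` (for fixed `s` and `t - r`).  The example: the `r`-sets whose complement meets
  every class of a partition of `s + r` points into `s - (t - r)` classes.
* The smallest failure of this kind has `r = 7`, `s = 4`, `t = 8`: `48 > 45`.
* `g r s t ≤ C(s + r, t)` always.
-/

set_option autoImplicit false

open Finset

namespace Pool.Agent.Results.MP_691546_co.Dichotomy

section defs

variable {V : Type} [Fintype V] [DecidableEq V]

/-- All edges have exactly `r` vertices. -/
def Uniform (r : ℕ) (H : Finset (Finset V)) : Prop := ∀ e ∈ H, e.card = r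

/-- `D` is dominating: every vertex `v` outside `D` lies in an edge `e` with `e \ {v} ⊆ D`. -/
def Dominating (H : Finset (Finset V)) (D : Finset V) : Prop :=
  ∀ v, v ∉ D → ∃ e ∈ H, v ∈ e ∧ e \ {v} ⊆ D

/-- Every vertex lies in an edge. -/
def NoIsolated (H : Finset (Finset V)) : Prop := ∀ v, ∃ e ∈ H, v ∈ e

open scoped Classical in
/-- The dominated number: the largest size of a set whose complement is dominating. -/
noncomputable def phi (H : Finset (Finset V)) : ℕ :=
  ((univ : Finset (Finset V)).filter fun S => Dominating H Sᶜ).sup card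

/-- The `t`-sets all of whose `r`-subsets are edges. -/
def cliques (H : Finset (Finset V)) (r t : ℕ) : Finset (Finset V) :=
  (univ.powersetCard t).filter fun T => ∀ e ∈ T.powersetCard r, e ∈ H

end defs

/-- The numbers of copies of the complete `r`-uniform hypergraph on `t` vertices in the `r`-uniform
hypergraphs on finite vertex sets, without isolated vertices, with dominated number at most `s`. -/
def counts (r s t : ℕ) : Set ℕ :=
  {N | ∃ (V : Type) (_ : Fintype V) (_ : DecidableEq V) (H : Finset (Finset V)),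
    Uniform r H ∧ NoIsolated H ∧ phi H ≤ s ∧ (cliques H r t).card = N}

/-- The largest such number. -/
noncomputable def g (r s t : ℕ) : ℕ := sSup (counts r s t)

section upper

variable {V : Type} [Fintype V] [DecidableEq V]

lemma card_le_of_phi {H : Finset (Finset V)} {s : ℕ} (h : phi H ≤ s) {S : Finset V}
    (hS : Dominating H Sᶜ) : S.card ≤ s := by
  classical
  refine le_trans ?_ h
  unfold phi
  exact Finset.le_sup (f := card) (mem_filter.2 ⟨mem_univ _, hS⟩)

lemma phi_le {H : Finset (Finset V)} {s : ℕ} (h : ∀ S : Finset V, Dominating H Sᶜ → S.card ≤ s) :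
    phi H ≤ s := by
  classical
  unfold phi
  refine Finset.sup_le fun S hS => h S (mem_filter.1 hS).2

lemma mem_cliques {H : Finset (Finset V)} {r t : ℕ} {K : Finset V} :
    K ∈ cliques H r t ↔ K.card = t ∧ ∀ e ⊆ K, e.card = r → e ∈ H := by
  unfold cliques
  rw [mem_filter, mem_powersetCard]
  constructor
  · rintro ⟨⟨_, h1⟩, h2⟩
    exact ⟨h1, fun e he h => h2 e (mem_powersetCard.2 ⟨he, h⟩)⟩
  · rintro ⟨h1, h2⟩
    exact ⟨⟨subset_univ _, h1⟩, fun e he => h2 e (mem_powersetCard.1 he).1 (mem_powersetCard.1 he).2⟩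

/-- A set is dominated if every vertex of it is in a clique on `r + d` vertices which meets the set
in at most `d + 1` vertices. -/
lemma dominating_of {H : Finset (Finset V)} {r d : ℕ} (hr : 1 ≤ r) {S : Finset V}
    (h : ∀ v ∈ S, ∃ K ∈ cliques H r (r + d), v ∈ K ∧ (K ∩ S).card ≤ d + 1) :
    Dominating H Sᶜ := by
  intro v hv
  have hvS : v ∈ S := by
    by_contra h'
    exact hv (mem_compl.2 h')
  obtain ⟨K, hK, hvK, hc⟩ := h v hvS
  rw [mem_cliques] at hK
  have h1 : (K \ S).card + (K ∩ S).card = K.card := card_sdiff_add_card_inter K S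
  obtain ⟨P, hP, hPc⟩ := exists_subset_card_eq (s := K \ S) (n := r - 1) (by omega)
  have hvP : v ∉ P := fun h' => (mem_sdiff.1 (hP h')).2 hvS
  refine ⟨insert v P, hK.2 _ ?_ ?_, mem_insert_self _ _, ?_⟩
  · intro x hx
    rcases mem_insert.1 hx with rfl | hx
    · exact hvK
    · exact (mem_sdiff.1 (hP hx)).1
  · rw [card_insert_of_notMem hvP, hPc]
    omega
  · intro x hx
    rw [mem_sdiff, mem_insert, mem_singleton] at hx
    have hxP : x ∈ P := hx.1.resolve_left hx.2
    exact mem_compl.2 (mem_sdiff.1 (hP hxP)).2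

/-- A smallest set which is disjoint from `K` and meets all the other cliques. -/
lemma exists_transversal (F : Finset (Finset V)) {t : ℕ} (hF : ∀ K ∈ F, K.card = t) (K : Finset V)
    (hK : K ∈ F) :
    ∃ T : Finset V, Disjoint K T ∧ (∀ K' ∈ F, K' ≠ K → ¬ Disjoint K' T) ∧
      ∀ x ∈ T, ∃ K' ∈ F, K' ≠ K ∧ x ∈ K' ∧ Disjoint K' (T.erase x) := by
  classical
  obtain ⟨T, hT, hmin⟩ := exists_min_image
    ((univ : Finset (Finset V)).filter fun T => Disjoint K T ∧ ∀ K' ∈ F, K' ≠ K → ¬ Disjoint K' T)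
    card ⟨Kᶜ, by
      rw [mem_filter]
      refine ⟨mem_univ _, disjoint_compl_right, fun K' hK' hne hd => hne ?_⟩
      have h1 : K' ⊆ K := fun x hx => by
        by_contra h'
        exact disjoint_left.1 hd hx (mem_compl.2 h')
      exact eq_of_subset_of_card_le h1 (by rw [hF K hK, hF K' hK'])⟩
  rw [mem_filter] at hT
  refine ⟨T, hT.2.1, hT.2.2, fun x hx => ?_⟩
  by_contra hcon
  push Not at hcon
  have h1 : T.erase x ∈ ((univ : Finset (Finset V)).filter fun T => Disjoint K T ∧
      ∀ K' ∈ F, K' ≠ K → ¬ Disjoint K' T) := by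
    rw [mem_filter]
    refine ⟨mem_univ _, Disjoint.mono_right (erase_subset _ _) hT.2.1, fun K' hK' hne hd => ?_⟩
    have h2 := hT.2.2 K' hK' hne
    rw [not_disjoint_iff] at h2
    obtain ⟨y, hy1, hy2⟩ := h2
    by_cases hyx : y = x
    · exact hcon K' hK' hne (hyx ▸ hy1) hd
    · exact (disjoint_left.1 hd hy1) (mem_erase.2 ⟨hyx, hy2⟩)
  have h2 := hmin _ h1
  rw [card_erase_of_mem hx] at h2
  have := card_pos.2 ⟨x, hx⟩
  omega

/-- Bollobás' inequality. -/
lemma card_le_of_transversals (F : Finset (Finset V)) {t b : ℕ} (hF : ∀ K ∈ F, K.card = t)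
    (T : Finset V → Finset V) (h1 : ∀ K ∈ F, Disjoint K (T K))
    (h2 : ∀ K ∈ F, ∀ K' ∈ F, K' ≠ K → ¬ Disjoint K' (T K)) (h3 : ∀ K ∈ F, (T K).card ≤ b) :
    F.card ≤ (t + b).choose t := by
  have h := Pool.Agent.H416Sens.bollobas (univ : Finset V) F id T (fun _ _ => subset_univ _)
    (fun _ _ => subset_univ _) (fun K hK => h1 K hK)
    (fun K hK K' hK' hne => h2 K' hK' K hK hne)
  have hpos : (0 : ℝ) < ((t + b).choose t : ℝ) := by
    exact_mod_cast Nat.choose_pos (by omega)
  have h4 : ∑ K ∈ F, (1 : ℝ) / ((t + b).choose t : ℝ) ≤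
      ∑ K ∈ F, (1 : ℝ) / (((id K).card + (T K).card).choose (id K).card : ℝ) := by
    apply sum_le_sum
    intro K hK
    rw [id, hF K hK]
    apply one_div_le_one_div_of_le
    · exact_mod_cast Nat.choose_pos (by omega)
    · exact_mod_cast Nat.choose_le_choose t (by have := h3 K hK; omega)
  rw [sum_const, nsmul_eq_mul] at h4
  have h5 := h4.trans h
  rw [mul_one_div, div_le_one hpos] at h5
  exact_mod_cast h5

lemma choose_transversals (F : Finset (Finset V)) {b : ℕ}
    (h : ∀ K ∈ F, ∃ T : Finset V, Disjoint K T ∧ (∀ K' ∈ F, K' ≠ K → ¬ Disjoint K' T) ∧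
      T.card ≤ b) {t : ℕ} (hF : ∀ K ∈ F, K.card = t) : F.card ≤ (t + b).choose t := by
  classical
  choose! T h1 h2 h3 using h
  exact card_le_of_transversals F hF T h1 h2 h3

variable {H : Finset (Finset V)} {r s d : ℕ}

/-- A clique on `r + d` vertices gives a dominated set of size `d + 1`. -/
lemma le_of_clique (hr : 1 ≤ r) (hphi : phi H ≤ s) {K : Finset V}
    (hK : K ∈ cliques H r (r + d)) : d + 1 ≤ s := by
  obtain ⟨Y, hY, hYc⟩ := exists_subset_card_eq (s := K) (n := d + 1)
    (by rw [(mem_cliques.1 hK).1]; omega)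
  rw [← hYc]
  refine card_le_of_phi hphi (dominating_of hr (d := d) fun v hv => ⟨K, hK, hY hv, ?_⟩)
  rw [← hYc]
  exact card_le_card inter_subset_right

lemma transversal_small (hr : 1 ≤ r) (hphi : phi H ≤ s) {K : Finset V}
    (hK : K ∈ cliques H r (r + d)) :
    ∃ T : Finset V, Disjoint K T ∧ (∀ K' ∈ cliques H r (r + d), K' ≠ K → ¬ Disjoint K' T) ∧
      T.card ≤ s - d ∧ (s ≤ 2 * d + 1 → T.card ≤ s - d - 1) := by
  classical
  have hKc := (mem_cliques.1 hK).1
  have hds := le_of_clique hr hphi hK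
  obtain ⟨T, h1, h2, h3⟩ := exists_transversal (cliques H r (r + d))
    (fun K hK => (mem_cliques.1 hK).1) K hK
  refine ⟨T, h1, h2, ?_, ?_⟩
  · by_contra hcon
    obtain ⟨T0, hT0, hT0c⟩ := exists_subset_card_eq (s := T) (n := s - d + 1) (by omega)
    obtain ⟨Y, hY, hYc⟩ := exists_subset_card_eq (s := K) (n := d) (by omega)
    have hdis : Disjoint T0 Y := (h1.mono hY hT0).symm
    have hcard : (T0 ∪ Y).card = s + 1 := by
      rw [card_union_of_disjoint hdis, hT0c, hYc]
      omega
    have hdom : Dominating H (T0 ∪ Y)ᶜ := by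
      refine dominating_of hr (d := d) fun v hv => ?_
      rcases mem_union.1 hv with hv | hv
      · obtain ⟨K', hK', _, hvK', hd'⟩ := h3 v (hT0 hv)
        refine ⟨K', hK', hvK', ?_⟩
        have hsub : K' ∩ (T0 ∪ Y) ⊆ insert v Y := by
          intro x hx
          rw [mem_inter, mem_union] at hx
          rw [mem_insert]
          rcases hx.2 with hx2 | hx2
          · left
            by_contra hne
            exact disjoint_left.1 hd' hx.1 (mem_erase.2 ⟨hne, hT0 hx2⟩)
          · right
            exact hx2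
        refine (card_le_card hsub).trans ((card_insert_le _ _).trans ?_)
        rw [hYc]
      · refine ⟨K, hK, hY hv, ?_⟩
        have hsub : K ∩ (T0 ∪ Y) ⊆ Y := by
          intro x hx
          rw [mem_inter, mem_union] at hx
          rcases hx.2 with hx2 | hx2
          · exact absurd (hT0 hx2) (disjoint_left.1 h1 hx.1)
          · exact hx2
        refine (card_le_card hsub).trans ?_
        omega
    have := card_le_of_phi hphi hdom
    omega
  · intro hs
    by_contra hcon
    obtain ⟨T0, hT0, hT0c⟩ := exists_subset_card_eq (s := T) (n := s - d) (by omega)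
    have h3' : ∀ x ∈ T0, ∃ K' ∈ cliques H r (r + d), ∃ z ∈ K, z ∉ K' ∧ x ∈ K' ∧
        Disjoint K' (T.erase x) := by
      intro x hx
      obtain ⟨K', hK', hne, hxK', hd'⟩ := h3 x (hT0 hx)
      have h4 : ¬ K ⊆ K' := fun hsub => hne
        (eq_of_subset_of_card_le hsub (by rw [hKc, (mem_cliques.1 hK').1])).symm
      obtain ⟨z, hz1, hz2⟩ := not_subset.1 h4
      exact ⟨K', hK', z, hz1, hz2, hxK', hd'⟩
    choose! f hf z hz1 hz2 hxf hfd using h3'
    have hY0 : T0.image z ⊆ K := by
      intro y hy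
      obtain ⟨x, hx, rfl⟩ := mem_image.1 hy
      exact hz1 x hx
    obtain ⟨Y, hY0Y, hY, hYc⟩ := exists_subsuperset_card_eq hY0 (n := d + 1)
      (card_image_le.trans (by omega)) (by omega)
    have hdis : Disjoint T0 Y := (h1.mono hY hT0).symm
    have hcard : (T0 ∪ Y).card = s + 1 := by
      rw [card_union_of_disjoint hdis, hT0c, hYc]
      omega
    have hdom : Dominating H (T0 ∪ Y)ᶜ := by
      refine dominating_of hr (d := d) fun v hv => ?_
      rcases mem_union.1 hv with hv | hv
      · refine ⟨f v, hf v hv, hxf v hv, ?_⟩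
        have hsub : f v ∩ (T0 ∪ Y) ⊆ insert v (Y.erase (z v)) := by
          intro x hx
          rw [mem_inter, mem_union] at hx
          rw [mem_insert, mem_erase]
          rcases hx.2 with hx2 | hx2
          · left
            by_contra hne
            exact disjoint_left.1 (hfd v hv) hx.1 (mem_erase.2 ⟨hne, hT0 hx2⟩)
          · right
            exact ⟨fun h' => hz2 v hv (h' ▸ hx.1), hx2⟩
        refine (card_le_card hsub).trans ((card_insert_le _ _).trans ?_)
        rw [card_erase_of_mem (hY0Y (mem_image_of_mem z hv)), hYc]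
        omega
      · refine ⟨K, hK, hY hv, ?_⟩
        have hsub : K ∩ (T0 ∪ Y) ⊆ Y := by
          intro x hx
          rw [mem_inter, mem_union] at hx
          rcases hx.2 with hx2 | hx2
          · exact absurd (hT0 hx2) (disjoint_left.1 h1 hx.1)
          · exact hx2
        refine (card_le_card hsub).trans ?_
        omega
    have := card_le_of_phi hphi hdom
    omega

/-- The general upper bound. -/
theorem card_cliques_le (hr : 1 ≤ r) (hphi : phi H ≤ s) :
    (cliques H r (r + d)).card ≤ (s + r).choose (r + d) := by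
  classical
  rcases (cliques H r (r + d)).eq_empty_or_nonempty with h | ⟨K0, hK0⟩
  · rw [h]; simp
  have hds := le_of_clique hr hphi hK0
  have h1 := choose_transversals (cliques H r (r + d)) (b := s - d)
    (fun K hK => by
      obtain ⟨T, h1, h2, h3, _⟩ := transversal_small hr hphi hK
      exact ⟨T, h1, h2, h3⟩) (fun K hK => (mem_cliques.1 hK).1)
  have h2 : r + d + (s - d) = s + r := by omega
  rwa [h2] at h1

/-- The sharp upper bound. -/
theorem card_cliques_le_sharp (hr : 1 ≤ r) (hphi : phi H ≤ s) (hs : s ≤ 2 * d + 1) :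
    (cliques H r (r + d)).card ≤ (s + r - 1).choose (r + d) := by
  classical
  rcases (cliques H r (r + d)).eq_empty_or_nonempty with h | ⟨K0, hK0⟩
  · rw [h]; simp
  have hds := le_of_clique hr hphi hK0
  have h1 := choose_transversals (cliques H r (r + d)) (b := s - d - 1)
    (fun K hK => by
      obtain ⟨T, h1, h2, _, h3⟩ := transversal_small hr hphi hK
      exact ⟨T, h1, h2, h3 hs⟩) (fun K hK => (mem_cliques.1 hK).1)
  have h2 : r + d + (s - d - 1) = s + r - 1 := by omega
  rwa [h2] at h1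

end upper

/-! ### The complete hypergraph -/

lemma mem_counts_complete {r s : ℕ} (hr : 1 ≤ r) (hs : 1 ≤ s) (t : ℕ) :
    (s + r - 1).choose t ∈ counts r s t := by
  classical
  refine ⟨Fin (s + r - 1), inferInstance, inferInstance, univ.powersetCard r, ?_, ?_, ?_, ?_⟩
  · intro e he
    exact (mem_powersetCard.1 he).2
  · intro v
    obtain ⟨e, he1, _, he2⟩ := exists_subsuperset_card_eq (s := {v}) (t := univ) (n := r)
      (subset_univ _) (by rw [card_singleton]; exact hr)
      (by rw [card_univ, Fintype.card_fin]; omega)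
    exact ⟨e, mem_powersetCard.2 ⟨subset_univ _, he2⟩, he1 (mem_singleton_self v)⟩
  · refine phi_le fun S hS => ?_
    rcases S.eq_empty_or_nonempty with h | ⟨v, hv⟩
    · rw [h]; simp
    · obtain ⟨e, he, hve, hsub⟩ := hS v (by rw [mem_compl]; exact fun h => h hv)
      have h1 := card_le_card hsub
      rw [card_sdiff_of_subset (singleton_subset_iff.2 hve), card_singleton, card_compl,
        Fintype.card_fin, (mem_powersetCard.1 he).2] at h1
      have h2 : S.card ≤ s + r - 1 := by
        have := card_le_univ S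
        rwa [Fintype.card_fin] at this
      omega
  · have h : cliques (univ.powersetCard r : Finset (Finset (Fin (s + r - 1)))) r t =
        univ.powersetCard t := by
      ext K
      rw [mem_cliques, mem_powersetCard]
      constructor
      · rintro ⟨h1, _⟩
        exact ⟨subset_univ _, h1⟩
      · rintro ⟨_, h1⟩
        exact ⟨h1, fun e _ he => mem_powersetCard.2 ⟨subset_univ _, he⟩⟩
    rw [h, card_powersetCard, card_univ, Fintype.card_fin]

/-! ### The sets whose complement meets all classes of a partition -/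

section multi

variable {h : ℕ} (a : Fin h → ℕ)

/-- The points, in `h` classes of the sizes `a i`. -/
abbrev Pt : Type := Σ i : Fin h, Fin (a i)

/-- The `r`-sets whose complement meets every class. -/
def mH (r : ℕ) : Finset (Finset (Pt a)) :=
  (univ.powersetCard r).filter fun e => ∀ i, ∃ v : Pt a, v.1 = i ∧ v ∉ e

variable {a}

lemma mem_mH {r : ℕ} {e : Finset (Pt a)} :
    e ∈ mH a r ↔ e.card = r ∧ ∀ i, ∃ v : Pt a, v.1 = i ∧ v ∉ e := by
  unfold mH
  rw [mem_filter, mem_powersetCard]
  constructor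
  · rintro ⟨⟨_, h1⟩, h2⟩
    exact ⟨h1, h2⟩
  · rintro ⟨h1, h2⟩
    exact ⟨⟨subset_univ _, h1⟩, h2⟩

lemma card_pt : Fintype.card (Pt a) = ∑ i, a i := by
  rw [Fintype.card_sigma]
  exact sum_congr rfl fun i _ => Fintype.card_fin _

lemma phi_mH {r s : ℕ} (hr : 1 ≤ r) (hsum : ∑ i, a i = s + r) (hs : s + 1 < 2 * h) :
    phi (mH a r) ≤ s := by
  classical
  refine phi_le fun S hS => ?_
  by_contra hcon
  have hn : Fintype.card (Pt a) = s + r := by rw [card_pt, hsum]
  have hle : S.card ≤ s + r := by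
    have := card_le_univ S
    rwa [hn] at this
  have key : ∀ v ∈ S, ∀ i, ∃ w ∈ S, w ≠ v ∧ w.1 = i := by
    intro v hv i
    obtain ⟨e, he, hve, hsub⟩ := hS v (by rw [mem_compl]; exact fun h => h hv)
    rw [mem_mH] at he
    have hc : (e \ {v}).card = r - 1 := by
      rw [card_sdiff_of_subset (singleton_subset_iff.2 hve), card_singleton, he.1]
    have heq : e \ {v} = Sᶜ := by
      apply eq_of_subset_of_card_le hsub
      rw [card_compl, hn, hc]
      omega
    obtain ⟨w, hw1, hw2⟩ := he.2 i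
    refine ⟨w, ?_, fun h' => hw2 (h' ▸ hve), hw1⟩
    by_contra hwS
    have : w ∈ e \ {v} := by
      rw [heq]
      exact mem_compl.2 hwS
    exact hw2 (mem_sdiff.1 this).1
  have hne : S.Nonempty := by
    rw [← card_pos]
    omega
  obtain ⟨v0, hv0⟩ := hne
  have two : ∀ i, 2 ≤ (S.filter fun v => v.1 = i).card := by
    intro i
    obtain ⟨w, hw, _, hwi⟩ := key v0 hv0 i
    obtain ⟨w', hw', hne', hwi'⟩ := key w hw i
    have : ({w, w'} : Finset (Pt a)) ⊆ S.filter fun v => v.1 = i := by
      intro x hx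
      rw [mem_insert, mem_singleton] at hx
      rw [mem_filter]
      rcases hx with rfl | rfl
      · exact ⟨hw, hwi⟩
      · exact ⟨hw', hwi'⟩
    have h2 := card_le_card this
    rwa [card_pair hne'.symm] at h2
  have htot : S.card = ∑ i, (S.filter fun v => v.1 = i).card :=
    card_eq_sum_card_fiberwise fun v _ => mem_univ _
  have h3 : ∑ i : Fin h, 2 ≤ ∑ i, (S.filter fun v => v.1 = i).card :=
    sum_le_sum fun i _ => two i
  rw [sum_const, card_univ, Fintype.card_fin, smul_eq_mul, ← htot] at h3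
  -- a subset of size `s + 1` would be enough
  obtain ⟨v, hv⟩ : ∃ v, v ∈ S := ⟨v0, hv0⟩
  obtain ⟨e, he, hve, hsub⟩ := hS v (by rw [mem_compl]; exact fun h => h hv)
  rw [mem_mH] at he
  have h1 := card_le_card hsub
  rw [card_sdiff_of_subset (singleton_subset_iff.2 hve), card_singleton, card_compl, hn, he.1] at h1
  omega

lemma noIsolated_mH {r s : ℕ} (hr : 1 ≤ r) (hsum : ∑ i, a i = s + r) (hs : h ≤ s)
    (ha : ∀ i, 2 ≤ a i) : NoIsolated (mH a r) := by
  classical
  intro v
  have hn : Fintype.card (Pt a) = s + r := by rw [card_pt, hsum]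
  have h1 : ∀ i, ∃ w : Pt a, w.1 = i ∧ w ≠ v := by
    intro i
    by_cases h : (⟨i, ⟨0, by have := ha i; omega⟩⟩ : Pt a) = v
    · refine ⟨⟨i, ⟨1, by have := ha i; omega⟩⟩, rfl, fun h' => ?_⟩
      rw [← h] at h'
      simp at h'
    · exact ⟨_, rfl, h⟩
  choose w hw1 hw2 using h1
  obtain ⟨c, hc1, hc2, hc3⟩ := exists_subsuperset_card_eq (s := univ.image w) (t := univ.erase v)
    (n := s) (by
      intro x hx
      obtain ⟨i, _, rfl⟩ := mem_image.1 hx
      exact mem_erase.2 ⟨hw2 i, mem_univ _⟩)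
    (card_image_le.trans (by rw [card_univ, Fintype.card_fin]; exact hs))
    (by rw [card_erase_of_mem (mem_univ v), card_univ, hn]; omega)
  refine ⟨cᶜ, mem_mH.2 ⟨?_, fun i => ⟨w i, hw1 i, ?_⟩⟩, ?_⟩
  · rw [card_compl, hn, hc3]
    omega
  · rw [mem_compl, not_not]
    exact hc1 (mem_image_of_mem w (mem_univ i))
  · rw [mem_compl]
    intro h
    exact (mem_erase.1 (hc2 h)).1 rfl

lemma card_cliques_mH {r s d : ℕ} (hsum : ∑ i, a i = s + r) (hs : h = s - d) (hds : d ≤ s) :
    ∏ i, a i ≤ (cliques (mH a r) r (r + d)).card := by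
  classical
  have hn : Fintype.card (Pt a) = s + r := by rw [card_pt, hsum]
  let T : (∀ i, Fin (a i)) → Finset (Pt a) := fun f => univ.image fun i => (⟨i, f i⟩ : Pt a)
  have hTmem : ∀ (f : ∀ i, Fin (a i)) (v : Pt a), v ∈ T f ↔ f v.1 = v.2 := by
    intro f v
    simp only [T, mem_image, mem_univ, true_and]
    constructor
    · rintro ⟨i, rfl⟩
      rfl
    · intro h
      exact ⟨v.1, by rw [h]⟩
  have hTc : ∀ f, (T f).card = h := by
    intro f
    have hinj : Function.Injective fun i => (⟨i, f i⟩ : Pt a) := by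
      intro i j hij
      exact (Sigma.mk.inj_iff.1 hij).1
    rw [card_image_of_injective _ hinj, card_univ, Fintype.card_fin]
  have hcard : ∏ i, a i = (univ : Finset (∀ i, Fin (a i))).card := by
    rw [card_univ, Fintype.card_pi]
    exact prod_congr rfl fun i _ => (Fintype.card_fin _).symm
  rw [hcard]
  apply card_le_card_of_injOn (fun f => (T f)ᶜ)
  · intro f _
    rw [mem_coe, mem_cliques]
    refine ⟨?_, fun e he hec => mem_mH.2 ⟨hec, fun i => ⟨⟨i, f i⟩, rfl, fun h => ?_⟩⟩⟩
    · rw [card_compl, hn, hTc]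
      omega
    · have := he h
      rw [mem_compl, hTmem] at this
      exact this rfl
  · intro f _ f' _ hff
    have h1 : T f = T f' := compl_injective hff
    funext i
    have h2 : (⟨i, f i⟩ : Pt a) ∈ T f' := by
      rw [← h1, hTmem]
    rw [hTmem] at h2
    exact h2.symm

end multi

/-! ### The extremal function -/

lemma le_of_mem_counts {r s t N : ℕ} (hr : 1 ≤ r) (hrt : r ≤ t) (hN : N ∈ counts r s t) :
    N ≤ (s + r).choose t := by
  obtain ⟨V, _, _, H, _, _, hphi, rfl⟩ := hN
  obtain ⟨d, rfl⟩ := Nat.exists_eq_add_of_le hrt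
  exact card_cliques_le hr hphi

lemma bdd {r s t : ℕ} (hr : 1 ≤ r) (hrt : r ≤ t) : BddAbove (counts r s t) :=
  ⟨_, fun _ hN => le_of_mem_counts hr hrt hN⟩

lemma prod_le_g {r s d : ℕ} (a : Fin (s - d) → ℕ) (hr : 1 ≤ r) (hs : 2 * (d + 1) ≤ s)
    (ha : ∀ i, 2 ≤ a i) (hsum : ∑ i, a i = s + r) : ∏ i, a i ≤ g r s (r + d) := by
  refine (card_cliques_mH (r := r) (s := s) (d := d) hsum rfl (by omega)).trans ?_
  refine le_csSup (bdd hr (Nat.le_add_right _ _)) ?_
  refine ⟨Pt a, inferInstance, inferInstance, mH a r, fun e he => (mem_mH.1 he).1,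
    noIsolated_mH hr hsum (by omega) ha, phi_mH hr hsum (by omega), rfl⟩

lemma exists_sizes {h n : ℕ} (hh : 1 ≤ h) :
    ∃ a : Fin h → ℕ, (∀ i, n / h ≤ a i) ∧ ∑ i, a i = n := by
  obtain ⟨m, rfl⟩ : ∃ m, h = m + 1 := ⟨h - 1, by omega⟩
  have h1 : (m + 1) * (n / (m + 1)) ≤ n := Nat.mul_div_le n (m + 1)
  generalize n / (m + 1) = q at h1
  have h2 : (m + 1) * q = m * q + q := by ring
  refine ⟨Fin.cons (n - m * q) fun _ => q, fun i => ?_, ?_⟩
  · refine Fin.cases ?_ (fun j => ?_) i
    · rw [Fin.cons_zero]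
      omega
    · rw [Fin.cons_succ]
  · rw [Fin.sum_univ_succ, Fin.cons_zero]
    simp only [Fin.cons_succ, sum_const, card_univ, Fintype.card_fin, smul_eq_mul]
    omega

lemma ratio {s d : ℕ} (hs : 2 * (d + 1) ≤ s) (C : ℕ) :
    ∃ r0, ∀ r ≥ r0, C * (s + r - 1).choose (r + d) < g r s (r + d) := by
  have hh1 : 1 ≤ s - d := by omega
  generalize hh : s - d = h at hh1
  refine ⟨h * (C * (2 * h) ^ (h - 1) + 2), fun r hr => ?_⟩
  set q := (s + r) / h with hq
  have hq1 : C * (2 * h) ^ (h - 1) + 2 ≤ q := by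
    rw [hq, Nat.le_div_iff_mul_le (by omega)]
    calc (C * (2 * h) ^ (h - 1) + 2) * h = h * (C * (2 * h) ^ (h - 1) + 2) := by ring
      _ ≤ r := hr
      _ ≤ s + r := by omega
  have hr1 : 1 ≤ r := by
    refine le_trans ?_ hr
    have : 1 * 1 ≤ h * (C * (2 * h) ^ (h - 1) + 2) := Nat.mul_le_mul hh1 (by omega)
    simpa using this
  obtain ⟨a, ha, hsum⟩ := exists_sizes (n := s + r) hh1
  have h1 : ∏ i, a i ≤ g r s (r + d) := by
    subst hh
    exact prod_le_g a hr1 hs (fun i => le_trans (by omega) (ha i)) hsum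
  have h2 : q ^ h ≤ ∏ i, a i := by
    calc q ^ h = ∏ i : Fin h, q := by rw [prod_const, card_univ, Fintype.card_fin]
      _ ≤ ∏ i, a i := prod_le_prod' fun i _ => ha i
  refine lt_of_lt_of_le ?_ (h2.trans h1)
  have h3 : (s + r - 1).choose (r + d) = (s + r - 1).choose (h - 1) := by
    apply Nat.choose_symm_of_eq_add
    omega
  have h4 : s + r < h * (q + 1) := by
    rw [hq]
    exact Nat.lt_mul_div_succ (s + r) (by omega)
  have h5 : s + r - 1 ≤ 2 * h * q := by
    have : h * (q + 1) ≤ 2 * h * q := by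
      have : h * 1 ≤ h * q := Nat.mul_le_mul_left h (by omega)
      nlinarith
    omega
  have h6 : (s + r - 1).choose (h - 1) ≤ (2 * h * q) ^ (h - 1) :=
    (Nat.choose_le_pow _ _).trans (Nat.pow_le_pow_left h5 _)
  have h7 : q ^ h = q * q ^ (h - 1) := by
    rw [← pow_succ']
    congr 1
    omega
  have hqpos : 0 < q := by omega
  calc C * (s + r - 1).choose (r + d) ≤ C * (2 * h * q) ^ (h - 1) := by
        rw [h3]
        exact Nat.mul_le_mul_left _ h6
    _ = C * (2 * h) ^ (h - 1) * q ^ (h - 1) := by rw [mul_pow]; ring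
    _ < q * q ^ (h - 1) := Nat.mul_lt_mul_of_pos_right (by omega) (pow_pos hqpos _)
    _ = q ^ h := h7.symm

/-- For `t = r + d`, the equality `g r s t = C(s + r - 1, t)` holds for all `r` if and only if
`s ≤ 2 d + 1`; if `s ≥ 2 d + 2` the quotient tends to infinity with `r`. -/
theorem result :
    (∀ r s t, 1 ≤ r → 1 ≤ s → r ≤ t → IsGreatest (counts r s t) (g r s t) ∧
      (s + r - 1).choose t ≤ g r s t ∧ g r s t ≤ (s + r).choose t) ∧
    (∀ r s t, 1 ≤ r → 1 ≤ s → r ≤ t → s ≤ 2 * (t - r) + 1 →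
      g r s t = (s + r - 1).choose t) ∧
    (∀ r s d (a : Fin (s - d) → ℕ), 1 ≤ r → 2 * (d + 1) ≤ s → (∀ i, 2 ≤ a i) →
      ∑ i, a i = s + r → ∏ i, a i ≤ g r s (r + d)) ∧
    (∀ s d, 2 * (d + 1) ≤ s → ∀ C, ∃ r0, ∀ r ≥ r0,
      C * (s + r - 1).choose (r + d) < g r s (r + d)) ∧
    (48 ≤ g 7 4 8 ∧ (4 + 7 - 1).choose 8 = 45) ∧
    (∀ s d, 1 ≤ s → ((∀ r, 3 ≤ r → g r s (r + d) = (s + r - 1).choose (r + d)) ↔
      s ≤ 2 * d + 1)) ∧
    ¬ ∀ r s t, 3 ≤ r → 1 ≤ s → r + 1 ≤ t → g r s t = (s + r - 1).choose t := by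
  have hA : ∀ r s t, 1 ≤ r → 1 ≤ s → r ≤ t → IsGreatest (counts r s t) (g r s t) ∧
      (s + r - 1).choose t ≤ g r s t ∧ g r s t ≤ (s + r).choose t := by
    intro r s t hr hs hrt
    have hne : (counts r s t).Nonempty := ⟨_, mem_counts_complete hr hs t⟩
    have hmem := Nat.sSup_mem hne (bdd hr hrt)
    exact ⟨⟨hmem, fun N hN => le_csSup (bdd hr hrt) hN⟩,
      le_csSup (bdd hr hrt) (mem_counts_complete hr hs t), le_of_mem_counts hr hrt hmem⟩
  have hB : ∀ r s t, 1 ≤ r → 1 ≤ s → r ≤ t → s ≤ 2 * (t - r) + 1 →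
      g r s t = (s + r - 1).choose t := by
    intro r s t hr hs hrt hst
    obtain ⟨h1, h2, _⟩ := hA r s t hr hs hrt
    refine le_antisymm ?_ h2
    obtain ⟨V, _, _, H, _, _, hphi, hN⟩ := h1.1
    rw [← hN]
    obtain ⟨d, rfl⟩ := Nat.exists_eq_add_of_le hrt
    exact card_cliques_le_sharp hr hphi (by omega)
  have hC : ∀ r s d (a : Fin (s - d) → ℕ), 1 ≤ r → 2 * (d + 1) ≤ s → (∀ i, 2 ≤ a i) →
      ∑ i, a i = s + r → ∏ i, a i ≤ g r s (r + d) :=
    fun r s d a hr hs ha hsum => prod_le_g a hr hs ha hsum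
  have hE : 48 ≤ g 7 4 8 := by
    have h := hC 7 4 1 (![4, 4, 3] : Fin 3 → ℕ) (by norm_num) (by norm_num)
      (by intro i; fin_cases i <;> norm_num) (by decide)
    refine le_trans ?_ h
    decide
  refine ⟨hA, hB, hC, fun s d hs C => ratio hs C, ⟨hE, by decide⟩, ?_, ?_⟩
  · intro s d hs
    constructor
    · intro h
      by_contra hcon
      obtain ⟨r0, hr0⟩ := ratio (s := s) (d := d) (by omega) 1
      have h1 := hr0 (r0 + 3) (by omega)
      have h2 := h (r0 + 3) (by omega)
      omega
    · intro h r hr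
      exact hB r s (r + d) (by omega) hs (by omega) (by omega)
  · intro h
    have h1 := h 7 4 8 (by norm_num) (by norm_num) (by norm_num)
    have h2 : (4 + 7 - 1).choose 8 = 45 := by decide
    omega

end Pool.Agent.Results.MP_691546_co.Dichotomy
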